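import Pool.Agent.W205.K5.Stm0

set_option autoImplicit false

namespace Pool.Agent.W981.K5

open Pool.Agent.W205.K5 Finset

theorem piece32 (hL : S_LINE) (hC : S_CHORD) : PIECE 3 2 := by
  intro w g hs h1 h2 ρ hρ0 hρ1 hρ
  have hKK2 : KK 2 = 1 / 2 := by norm_num [KK]
  have hKK3 : KK (2 + 1) = 8 / 9 := by norm_num [KK]
  have hch := hC 3 w g (by norm_num) hs 2 (by norm_num) (by norm_num) h1 h2
  have hln := hL 3 w g hs 1 (1 / 6) (2 / 3) (by norm_num) (by norm_num) (by norm_num)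
    (by norm_num) (by intro n hn1 hn2; interval_cases n <;> norm_num)
  have a0 : g 1 ≤ g 0 + w 1 := hs.add 0 (by norm_num)
  have a1 : g 2 ≤ g 1 + w 2 := hs.add 1 (by norm_num)
  have j2 : ((2 : ℕ) : ℝ) ≤ g 2 := hs.jen 2 (by norm_num)
  have w3 : w 3 = 1 := hs.wk
  rw [hKK2, hKK3] at hch
  rw [hKK2] at h1
  rw [hKK3] at h2
  norm_num at hch j2 hρ
  -- the localisation of the root
  have hq : 26 * ρ ^ 2 + 9 * ρ = 27 := by
    have h3 : ρ * (26 * ρ ^ 2 + 9 * ρ - 27) = 0 := by nlinarith [hρ]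
    rcases mul_eq_zero.1 h3 with h4 | h4
    · exact absurd h4 hρ0.ne'
    · linarith
  have hlo : 1 / 2 ≤ ρ := by
    by_contra h0
    push Not at h0
    nlinarith
  have hhi : ρ ≤ 861 / 1000 := by
    by_contra h0
    push Not at h0
    nlinarith
  have hsl : 0 ≤ 108 - 198 * ρ + 85 * ρ ^ 2 := by nlinarith
  have h4 : ρ ^ 3 + (1 - ρ / 3) ^ 3 = 1 := by simpa using hρ
  -- the bounds
  have b1 : (4 - g 0) / 7 ≤ w 1 := by linarith
  have b2 : 2 - g 0 - w 1 ≤ w 2 := by linarith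
  have b0 : 4 / 21 + 5 / 42 * g 0 ≤ w 0 := by linarith
  have c2 : 0 ≤ 3 * ρ * (1 - ρ) ^ 2 := by
    have : 0 ≤ 1 - ρ := by linarith
    positivity
  have c12 : 0 ≤ 3 * ρ ^ 2 * (1 - ρ) - 3 * ρ * (1 - ρ) ^ 2 := by
    have e : 3 * ρ ^ 2 * (1 - ρ) - 3 * ρ * (1 - ρ) ^ 2 = 3 * ρ * (1 - ρ) * (2 * ρ - 1) := by ring
    rw [e]
    have e1 : 0 ≤ 1 - ρ := by linarith
    have e2 : 0 ≤ 2 * ρ - 1 := by linarith
    positivity
  have c0 : 0 ≤ ρ ^ 3 := by positivity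
  have m2 := mul_le_mul_of_nonneg_left b2 c2
  have m1 := mul_le_mul_of_nonneg_left b1 c12
  have m0 := mul_le_mul_of_nonneg_left b0 c0
  have ms : 0 ≤ ρ * (108 - 198 * ρ + 85 * ρ ^ 2) * (8 / 9 - g 0) :=
    mul_nonneg (mul_nonneg hρ0.le hsl) (by linarith)
  have hTh : Th 3 ρ (fun j => w (3 - j)) = (1 - ρ) ^ 3 + 3 * ρ * (1 - ρ) ^ 2 * w 2 +
      3 * ρ ^ 2 * (1 - ρ) * w 1 + ρ ^ 3 * w 0 := by
    simp only [Th, Finset.sum_range_succ, Finset.sum_range_zero]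
    norm_num [Nat.choose, w3]
    ring
  rw [hTh]
  nlinarith [m2, m1, m0, ms, h4]

end Pool.Agent.W981.K5
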